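import Pool.Agent.U16.UGT.Main

/-!
# A complete language, composition of reductions
-/

set_option autoImplicit false
set_option linter.unusedSectionVars false

namespace Pool.Agent.U16.UGT

open Pool.Agent.NPC

theorem sz_sublist {β : Type} [TEnc β] {l l' : List β} (h : l.Sublist l') : sz l ≤ sz l' := by
  induction h with
  | slnil => exact le_rfl
  | cons a _ ih =>
    have := sz_pos a
    simp
    omega
  | cons_cons a _ ih =>
    simp
    omega

theorem inNPP_SAT : InNPP SAT := by
  have hR : Poly (fun x : List (List (Bool × ℕ)) × List ℕ => x.1.all fun c => c.any fun l =>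
      decide (decide (l.2 ∈ x.2) = l.1)) := by
    fun_prop
  have hv : Poly (fun φ : List (List (Bool × ℕ)) => φ.flatten.map Prod.snd) := by
    fun_prop
  obtain ⟨p, hp⟩ := hv.sz_le
  refine Med.of_cert hR p (fun φ w h => ?_) fun φ h => ?_
  · simp only [List.all_eq_true, List.any_eq_true, decide_eq_true_eq] at h
    exact ⟨fun v => decide (v ∈ w), h⟩
  · obtain ⟨τ, hτ⟩ := h
    refine ⟨(φ.flatten.map Prod.snd).filter fun v => τ v, (sz_sublist List.filter_sublist).trans
      (hp φ), ?_⟩
    simp only [List.all_eq_true, List.any_eq_true, decide_eq_true_eq]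
    intro c hc
    obtain ⟨l, hl, h1⟩ := hτ c hc
    refine ⟨l, hl, ?_⟩
    rw [← h1]
    have h2 : l.2 ∈ φ.flatten.map Prod.snd :=
      List.mem_map.2 ⟨l, List.mem_flatten.2 ⟨c, hc, hl⟩, rfl⟩
    cases h3 : τ l.2 with
    | true => exact decide_eq_true (List.mem_filter.2 ⟨h2, h3⟩)
    | false =>
      refine decide_eq_false fun h4 => ?_
      have h5 := (List.mem_filter.1 h4).2
      rw [h3] at h5
      exact Bool.false_ne_true h5

theorem Red.of_reduces {L L' Y Z : Set (List Bool)} (h : Reduces L L') (h' : Red L' Y Z) :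
    Red L Y Z := by
  obtain ⟨f, hf, h⟩ := h
  obtain ⟨g, hg, h'⟩ := h'
  exact ⟨fun x => g (f x), H642R2.TMSim.polyTime_comp hg hf, fun x =>
    ⟨fun hx => (h' _).1 ((h x).1 hx), fun hx => (h' _).2 fun h1 => hx ((h x).2 h1)⟩⟩

/-- Many-one reductions are positive truth-table reductions with one query. -/
theorem posTT_of_red {L Y Z : Set (List Bool)} (h : Red L Y Z) :
    PosTT (k := 1) L (fun _ => Y) (fun _ => Z) := by
  classical
  obtain ⟨f, hf, h⟩ := h
  refine ⟨fun _ => f, fun _ b => b 0, fun _ => hf, fun b => ?_, fun x b b' hb => hb 0,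
    fun A hA hA' x => ?_⟩
  · exact polyTime_of_poly (NPC.Poly.const (b 0))
  · rw [decide_eq_true_eq]
    constructor
    · intro hx
      exact hA 0 ((h x).1 hx)
    · intro hx
      by_contra hx'
      exact Set.disjoint_left.1 (hA' 0) hx ((h x).2 hx')

/-- Composition of a positive truth-table reduction with many-one reductions. -/
theorem PosTT.comp_red {k : ℕ} {L : Set (List Bool)} {L' Y Z : Fin k → Set (List Bool)}
    (h : PosTT L L' fun i => (L' i)ᶜ) (h' : ∀ i, Red (L' i) (Y i) (Z i)) : PosTT L Y Z := by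
  classical
  obtain ⟨f, φ, hf, hφ, hmon, hA⟩ := h
  choose g hg hg' using h'
  refine ⟨fun i x => g i (f i x), φ, fun i => H642R2.TMSim.polyTime_comp (hg i) (hf i), hφ, hmon,
    fun A hY hZ x => ?_⟩
  rw [hA L' (fun i => subset_rfl) (fun i => disjoint_compl_right) x]
  have h1 : (fun i => decide (f i x ∈ L' i)) = fun i => decide (g i (f i x) ∈ A i) := by
    funext i
    refine decide_eq_decide.2 ⟨fun h2 => hY i ((hg' i _).1 h2), fun h2 => ?_⟩
    by_contra h3
    exact Set.disjoint_left.1 (hZ i) h2 ((hg' i _).2 h3)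
  constructor
  · intro h2
    refine Eq.trans (congrArg (φ x) ?_) h2
    funext i
    have := congrFun h1 i
    convert this.symm
  · intro h2
    refine Eq.trans (congrArg (φ x) ?_) h2
    funext i
    have := congrFun h1 i
    convert this

/-- The union of two languages. -/
theorem posTT_union (L : Fin 2 → Set (List Bool)) : PosTT (L 0 ∪ L 1) L fun i => (L i)ᶜ := by
  classical
  refine ⟨fun _ x => x, fun _ b => b 0 || b 1, fun _ => polyTime_id, fun b =>
    polyTime_of_poly (NPC.Poly.const _), fun x b b' hb => ?_, fun A hA hA' x => ?_⟩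
  · have h0 := hb 0
    have h1 := hb 1
    simp only
    revert h0 h1
    cases b 0 <;> cases b 1 <;> cases b' 0 <;> cases b' 1 <;> simp
  · have h1 : ∀ i, x ∈ A i ↔ x ∈ L i := fun i => ⟨fun h => by
      by_contra h2
      exact Set.disjoint_left.1 (hA' i) h h2, fun h => hA i h⟩
    simp only [Bool.or_eq_true, decide_eq_true_eq, h1, Set.mem_union]

/-- The intersection of two languages. -/
theorem posTT_inter (L : Fin 2 → Set (List Bool)) : PosTT (L 0 ∩ L 1) L fun i => (L i)ᶜ := by
  classical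
  refine ⟨fun _ x => x, fun _ b => b 0 && b 1, fun _ => polyTime_id, fun b =>
    polyTime_of_poly (NPC.Poly.const _), fun x b b' hb => ?_, fun A hA hA' x => ?_⟩
  · have h0 := hb 0
    have h1 := hb 1
    simp only
    revert h0 h1
    cases b 0 <;> cases b 1 <;> cases b' 0 <;> cases b' 1 <;> simp
  · have h1 : ∀ i, x ∈ A i ↔ x ∈ L i := fun i => ⟨fun h => by
      by_contra h2
      exact Set.disjoint_left.1 (hA' i) h h2, fun h => hA i h⟩
    simp only [Bool.and_eq_true, decide_eq_true_eq, h1, Set.mem_inter_iff]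

theorem Yes.mono {ε ε' : ℝ} {q : ℕ} (h : ε ≤ ε') : Yes ε q ⊆ Yes ε' q := by
  intro x hx
  obtain ⟨r, h1, h2⟩ := mem_Yes.1 hx
  exact mem_Yes.2 ⟨r, h1.mono h, h2⟩

theorem No.mono {δ δ' : ℝ} {q : ℕ} (h : δ ≤ δ') : No δ q ⊆ No δ' q := by
  rintro x ⟨N, M, k, g, h1, h2, h3⟩
  exact ⟨N, M, k, g, h1, fun L R => (h2 L R).trans
    (mul_le_mul_of_nonneg_right h (Nat.cast_nonneg _)), h3⟩

theorem Red.mono {L Y Z Y' Z' : Set (List Bool)} (h : Red L Y Z) (hY : Y ⊆ Y') (hZ : Z ⊆ Z') :
    Red L Y' Z' := by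
  obtain ⟨f, hf, h⟩ := h
  exact ⟨f, hf, fun x => ⟨fun hx => hY ((h x).1 hx), fun hx => hZ ((h x).2 hx)⟩⟩

end Pool.Agent.U16.UGT
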