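import Pool.Agent.U16.UGO.Game

/-!
# The conjunction of two unique games
-/

set_option autoImplicit false
set_option linter.unusedSectionVars false

namespace Pool.Agent.U16.UGT

open Finset Pool.Agent.NPC Pool.Agent.NPC.R671 Pool.Agent.U16.UGO

variable {N M q k N' M' q' k' : ℕ}

/-- The permutation of the pairs of labels. -/
def pprod (π : Equiv.Perm (Fin q)) (π' : Equiv.Perm (Fin q')) : Equiv.Perm (Fin (q * q')) :=
  finProdFinEquiv.symm.trans ((Equiv.prodCongr π π').trans finProdFinEquiv)

@[simp] theorem pprod_apply (π : Equiv.Perm (Fin q)) (π' : Equiv.Perm (Fin q')) (a : Fin q)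
    (a' : Fin q') :
    pprod π π' (finProdFinEquiv (a, a')) = finProdFinEquiv (π a, π' a') := by
  simp [pprod]

theorem pprod_symm (π : Equiv.Perm (Fin q)) (π' : Equiv.Perm (Fin q')) (x : Fin (q * q')) :
    finProdFinEquiv.symm (pprod π π' x) =
      (π (finProdFinEquiv.symm x).1, π' (finProdFinEquiv.symm x).2) := by
  simp [pprod]

/-- The conjunction of two games: the vertices, the edges and the labels are the pairs of vertices,
of edges and of labels. -/
def andG (g : Game N M q k) (g' : Game N' M' q' k') :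
    Game (N * N') (M * M') (q * q') (k * k') := fun e =>
  (finProdFinEquiv ((g (finProdFinEquiv.symm e).1).1, (g' (finProdFinEquiv.symm e).2).1),
    finProdFinEquiv ((g (finProdFinEquiv.symm e).1).2.1, (g' (finProdFinEquiv.symm e).2).2.1),
    pprod (g (finProdFinEquiv.symm e).1).2.2 (g' (finProdFinEquiv.symm e).2).2.2)

/-- If both games have large values, so has the conjunction. -/
theorem and_yes {ε ε' : ℝ} {g : Game N M q k} (h : ValueAtLeast (1 - ε) g)
    {g' : Game N' M' q' k'} (h' : ValueAtLeast (1 - ε') g') :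
    ValueAtLeast (1 - (ε + ε')) (andG g g') := by
  obtain ⟨L, R, h⟩ := h
  obtain ⟨L', R', h'⟩ := h'
  refine ⟨fun w => finProdFinEquiv (L (finProdFinEquiv.symm w).1, L' (finProdFinEquiv.symm w).2),
    fun w => finProdFinEquiv (R (finProdFinEquiv.symm w).1, R' (finProdFinEquiv.symm w).2), ?_⟩
  have h1 : (sat (andG g g') (fun w => finProdFinEquiv (L (finProdFinEquiv.symm w).1,
      L' (finProdFinEquiv.symm w).2)) fun w => finProdFinEquiv (R (finProdFinEquiv.symm w).1,
      R' (finProdFinEquiv.symm w).2)).card = (sat g' L' R').card * (sat g L R).card := by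
    unfold sat
    rw [card_pairs]
    have h2 : ∀ j : Fin k', (univ.filter fun i : Fin k =>
        (andG g g' (finProdFinEquiv (i, j))).2.2 (finProdFinEquiv (L (finProdFinEquiv.symm
          (andG g g' (finProdFinEquiv (i, j))).1).1, L' (finProdFinEquiv.symm
          (andG g g' (finProdFinEquiv (i, j))).1).2)) = finProdFinEquiv (R (finProdFinEquiv.symm
          (andG g g' (finProdFinEquiv (i, j))).2.1).1, R' (finProdFinEquiv.symm
          (andG g g' (finProdFinEquiv (i, j))).2.1).2)).card =
        if (g' j).2.2 (L' (g' j).1) = R' (g' j).2.1 then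
          (univ.filter fun e => (g e).2.2 (L (g e).1) = R (g e).2.1).card else 0 := by
      intro j
      unfold andG
      simp only [Equiv.symm_apply_apply, pprod_apply, EmbeddingLike.apply_eq_iff_eq,
        Prod.mk.injEq]
      split_ifs with hj
      · simp only [hj, and_true]
      · simp only [hj, and_false, Finset.filter_false, Finset.card_empty]
    simp only [h2]
    rw [← Finset.sum_filter, Finset.sum_const, smul_eq_mul]
  rw [h1]
  push_cast
  have h2 : ((sat g L R).card : ℝ) ≤ k := by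
    have := Finset.card_le_univ (sat g L R)
    rw [Fintype.card_fin] at this
    exact_mod_cast this
  have h3 : ((sat g' L' R').card : ℝ) ≤ k' := by
    have := Finset.card_le_univ (sat g' L' R')
    rw [Fintype.card_fin] at this
    exact_mod_cast this
  have h4 := mul_nonneg (sub_nonneg.2 h2) (sub_nonneg.2 h3)
  have h5 : (0 : ℝ) ≤ k := Nat.cast_nonneg _
  have h6 : (0 : ℝ) ≤ k' := Nat.cast_nonneg _
  have h7 : (k' : ℝ) * (k - (sat g L R).card) ≤ k' * (ε * k) :=
    mul_le_mul_of_nonneg_left (by linarith) h6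
  have h8 : (k : ℝ) * (k' - (sat g' L' R').card) ≤ k * (ε' * k') :=
    mul_le_mul_of_nonneg_left (by linarith) h5
  nlinarith

/-- The value of the conjunction is at most the value of the first game. -/
theorem and_left {v : ℝ} {g : Game N M q k} (h : ValueAtMost v g) (g' : Game N' M' q' k') :
    ValueAtMost v (andG g g') := by
  intro L R
  unfold sat
  rw [card_pairs]
  push_cast
  calc _ ≤ ∑ _j : Fin k', v * (k : ℝ) := Finset.sum_le_sum fun j _ => by
        refine le_trans ?_ (h (fun u => (finProdFinEquiv.symm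
          (L (finProdFinEquiv (u, (g' j).1)))).1) (fun u => (finProdFinEquiv.symm
          (R (finProdFinEquiv (u, (g' j).2.1)))).1))
        unfold sat
        refine Nat.cast_le.2 (Finset.card_le_card fun i hi => ?_)
        rw [mem_filter] at hi ⊢
        refine ⟨mem_univ _, ?_⟩
        have h1 := congrArg (fun y => (finProdFinEquiv.symm y).1) hi.2
        unfold andG at h1
        simp only [Equiv.symm_apply_apply, pprod_symm] at h1
        exact h1
    _ = v * (k * k') := by
      rw [Finset.sum_const, Finset.card_univ, Fintype.card_fin, nsmul_eq_mul]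
      ring

/-- The value of the conjunction is at most the value of the second game. -/
theorem and_right {v : ℝ} (g : Game N M q k) {g' : Game N' M' q' k'} (h : ValueAtMost v g') :
    ValueAtMost v (andG g g') := by
  intro L R
  unfold sat
  rw [card_pairs']
  push_cast
  calc _ ≤ ∑ _j : Fin k, v * (k' : ℝ) := Finset.sum_le_sum fun j _ => by
        refine le_trans ?_ (h (fun u => (finProdFinEquiv.symm
          (L (finProdFinEquiv ((g j).1, u)))).2) (fun u => (finProdFinEquiv.symm
          (R (finProdFinEquiv ((g j).2.1, u)))).2))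
        unfold sat
        refine Nat.cast_le.2 (Finset.card_le_card fun i hi => ?_)
        rw [mem_filter] at hi ⊢
        refine ⟨mem_univ _, ?_⟩
        have h1 := congrArg (fun y => (finProdFinEquiv.symm y).2) hi.2
        unfold andG at h1
        simp only [Equiv.symm_apply_apply, pprod_symm] at h1
        exact h1
    _ = v * (k * k') := by
      rw [Finset.sum_const, Finset.card_univ, Fintype.card_fin, nsmul_eq_mul]
      ring

/-- The value of the disjunction is at least the value of the second game. -/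
theorem or_right {v : ℝ} (g : Game N M q k) {g' : Game N' M' q' k'} (h : ValueAtLeast v g') :
    ValueAtLeast v (orG g g') := by
  obtain ⟨L, R, h⟩ := h
  refine ⟨fun w => Fin.natAdd q (L (finProdFinEquiv.symm w).2),
    fun w => Fin.natAdd q (R (finProdFinEquiv.symm w).2), ?_⟩
  have h1 : (sat (orG g g') (fun w => Fin.natAdd q (L (finProdFinEquiv.symm w).2))
      fun w => Fin.natAdd q (R (finProdFinEquiv.symm w).2)).card = k * (sat g' L R).card := by
    unfold sat
    rw [card_pairs']
    have h2 : ∀ j : Fin k, (univ.filter fun i : Fin k' =>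
        (orG g g' (finProdFinEquiv (j, i))).2.2 (Fin.natAdd q (L (finProdFinEquiv.symm
          (orG g g' (finProdFinEquiv (j, i))).1).2)) = Fin.natAdd q (R (finProdFinEquiv.symm
          (orG g g' (finProdFinEquiv (j, i))).2.1).2)) =
        univ.filter fun e => (g' e).2.2 (L (g' e).1) = R (g' e).2.1 := by
      intro j
      refine Finset.filter_congr fun i _ => ?_
      unfold orG
      simp only [Equiv.symm_apply_apply, psum_right, Fin.natAdd_inj]
    simp only [h2]
    rw [Finset.sum_const, Finset.card_univ, Fintype.card_fin, smul_eq_mul]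
  rw [h1]
  push_cast
  have h3 : (0 : ℝ) ≤ k := Nat.cast_nonneg _
  calc v * (k * k' : ℝ) = k * (v * k') := by ring
    _ ≤ _ := mul_le_mul_of_nonneg_left h h3

/-! ### The data -/

/-- The data of a game. -/
abbrev Raw : Type := ℕ × ℕ × List (ℕ × ℕ × List ℕ)

/-- The conjunction for the data. -/
def andR (q' : ℕ) (r r' : Raw) : Raw :=
  (r.1 * r'.1, r.2.1 * r'.2.1, r.2.2.flatMap fun e => r'.2.2.map fun e' =>
    (e'.1 + r'.1 * e.1, e'.2.1 + r'.2.1 * e.2.1,
      e.2.2.flatMap fun a => e'.2.2.map fun a' => a' + q' * a))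

theorem raw_and (g : Game N M q k) (g' : Game N' M' q' k') :
    raw (andG g g') = andR q' (raw g) (raw g') := by
  unfold raw andR
  refine Prod.ext rfl (Prod.ext rfl ?_)
  simp only
  rw [ofFn_prod, ofFn_flatMap]
  congr 2
  funext i
  rw [List.map_ofFn, List.ofFn_inj]
  funext j
  unfold andG
  simp only [Equiv.symm_apply_apply, Function.comp]
  refine Prod.ext rfl (Prod.ext rfl ?_)
  simp only
  rw [ofFn_prod, ofFn_flatMap]
  congr 2
  funext a
  rw [List.map_ofFn, List.ofFn_inj]
  funext a'
  rw [pprod_apply]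
  rfl

section poly

variable {α : Type} [TEnc α]

theorem poly_andR (q' : ℕ) {r r' : α → Raw} (hr : Poly r) (hr' : Poly r') :
    Poly (fun a => andR q' (r a) (r' a)) := by
  unfold andR
  fun_prop

end poly

/-- The data is the data of a game over the alphabet `{0, …, q - 1}` with at least one edge. -/
def Valid (q : ℕ) (r : Raw) : Prop :=
  ∃ (N M k : ℕ) (g : Game N M q k), 0 < k ∧ r = raw g

/-- The data of a game of value at least `1 - ε`. -/
def YesR (ε : ℝ) (q : ℕ) (r : Raw) : Prop :=
  ∃ (N M k : ℕ) (g : Game N M q k), 0 < k ∧ ValueAtLeast (1 - ε) g ∧ r = raw g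

/-- The data of a game of value at most `δ`. -/
def NoR (δ : ℝ) (q : ℕ) (r : Raw) : Prop :=
  ∃ (N M k : ℕ) (g : Game N M q k), 0 < k ∧ ValueAtMost δ g ∧ r = raw g

theorem YesR.valid {ε : ℝ} {r : Raw} (h : YesR ε q r) : Valid q r := by
  obtain ⟨N, M, k, g, h1, -, h2⟩ := h
  exact ⟨N, M, k, g, h1, h2⟩

theorem NoR.valid {δ : ℝ} {r : Raw} (h : NoR δ q r) : Valid q r := by
  obtain ⟨N, M, k, g, h1, -, h2⟩ := h
  exact ⟨N, M, k, g, h1, h2⟩

theorem YesR.mono {ε ε' : ℝ} {r : Raw} (h : YesR ε q r) (h' : ε ≤ ε') : YesR ε' q r := by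
  obtain ⟨N, M, k, g, h1, ⟨L, R, h2⟩, h3⟩ := h
  refine ⟨N, M, k, g, h1, ⟨L, R, le_trans ?_ h2⟩, h3⟩
  exact mul_le_mul_of_nonneg_right (by linarith) (Nat.cast_nonneg _)

theorem and_valid {r r' : Raw} (h : Valid q r) (h' : Valid q' r') :
    Valid (q * q') (andR q' r r') := by
  obtain ⟨N, M, k, g, h1, rfl⟩ := h
  obtain ⟨N', M', k', g', h1', rfl⟩ := h'
  exact ⟨_, _, _, andG g g', Nat.mul_pos h1 h1', (raw_and g g').symm⟩

theorem and_yesR {ε ε' : ℝ} {r r' : Raw} (h : YesR ε q r) (h' : YesR ε' q' r') :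
    YesR (ε + ε') (q * q') (andR q' r r') := by
  obtain ⟨N, M, k, g, h1, h2, rfl⟩ := h
  obtain ⟨N', M', k', g', h1', h2', rfl⟩ := h'
  exact ⟨_, _, _, andG g g', Nat.mul_pos h1 h1', and_yes h2 h2', (raw_and g g').symm⟩

theorem and_noR_left {δ : ℝ} {r r' : Raw} (h : NoR δ q r) (h' : Valid q' r') :
    NoR δ (q * q') (andR q' r r') := by
  obtain ⟨N, M, k, g, h1, h2, rfl⟩ := h
  obtain ⟨N', M', k', g', h1', rfl⟩ := h'
  exact ⟨_, _, _, andG g g', Nat.mul_pos h1 h1', and_left h2 g', (raw_and g g').symm⟩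

theorem and_noR_right {δ : ℝ} {r r' : Raw} (h : Valid q r) (h' : NoR δ q' r') :
    NoR δ (q * q') (andR q' r r') := by
  obtain ⟨N, M, k, g, h1, rfl⟩ := h
  obtain ⟨N', M', k', g', h1', h2', rfl⟩ := h'
  exact ⟨_, _, _, andG g g', Nat.mul_pos h1 h1', and_right g h2', (raw_and g g').symm⟩

theorem or_valid {r r' : Raw} (h : Valid q r) (h' : Valid q' r') :
    Valid (q + q') (orR q r r') := by
  obtain ⟨N, M, k, g, h1, rfl⟩ := h
  obtain ⟨N', M', k', g', h1', rfl⟩ := h'
  exact ⟨_, _, _, orG g g', Nat.mul_pos h1 h1', (raw_or g g').symm⟩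

theorem or_yesR_left {ε : ℝ} {r r' : Raw} (h : YesR ε q r) (h' : Valid q' r') :
    YesR ε (q + q') (orR q r r') := by
  obtain ⟨N, M, k, g, h1, h2, rfl⟩ := h
  obtain ⟨N', M', k', g', h1', rfl⟩ := h'
  exact ⟨_, _, _, orG g g', Nat.mul_pos h1 h1', or_left h2 g', (raw_or g g').symm⟩

theorem or_yesR_right {ε : ℝ} {r r' : Raw} (h : Valid q r) (h' : YesR ε q' r') :
    YesR ε (q + q') (orR q r r') := by
  obtain ⟨N, M, k, g, h1, rfl⟩ := h
  obtain ⟨N', M', k', g', h1', h2', rfl⟩ := h'
  exact ⟨_, _, _, orG g g', Nat.mul_pos h1 h1', or_right g h2', (raw_or g g').symm⟩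

theorem or_noR {δ δ' : ℝ} (hδ : 0 ≤ δ) (hδ' : 0 ≤ δ') {r r' : Raw} (h : NoR δ q r)
    (h' : NoR δ' q' r') : NoR (δ + δ') (q + q') (orR q r r') := by
  obtain ⟨N, M, k, g, h1, h2, rfl⟩ := h
  obtain ⟨N', M', k', g', h1', h2', rfl⟩ := h'
  exact ⟨_, _, _, orG g g', Nat.mul_pos h1 h1', or_le hδ hδ' h2 h2', (raw_or g g').symm⟩

/-- The game with one edge, whose constraint is equality. -/
def triv (q : ℕ) : Raw := raw (fun _ : Fin 1 => (0, 0, Equiv.refl (Fin q)) : Game 1 1 q 1)

theorem triv_valid (q : ℕ) : Valid q (triv q) := ⟨1, 1, 1, _, one_pos, rfl⟩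

theorem triv_yes (hq : 0 < q) : YesR 0 q (triv q) := by
  refine ⟨1, 1, 1, _, one_pos, ⟨fun _ => ⟨0, hq⟩, fun _ => ⟨0, hq⟩, ?_⟩, rfl⟩
  have h1 : sat (fun _ : Fin 1 => (0, 0, Equiv.refl (Fin q)) : Game 1 1 q 1)
      (fun _ => ⟨0, hq⟩) (fun _ => ⟨0, hq⟩) = univ := by
    unfold sat
    ext e
    simp
  rw [h1]
  simp

/-- The game with one vertex on each side whose constraints are the cyclic shifts. -/
def shifts (q : ℕ) [NeZero q] : Raw :=
  raw (fun e : Fin q => (0, 0, Equiv.addRight e) : Game 1 1 q q)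

theorem shifts_no (q : ℕ) [NeZero q] {δ : ℝ} (h : 1 ≤ δ * q) : NoR δ q (shifts q) := by
  refine ⟨1, 1, q, _, Nat.pos_of_ne_zero (NeZero.ne q), fun L R => ?_, rfl⟩
  refine le_trans ?_ h
  have h1 : (sat (fun e : Fin q => (0, 0, Equiv.addRight e) : Game 1 1 q q) L R).card ≤ 1 := by
    rw [Finset.card_le_one]
    intro a ha b hb
    unfold sat at ha hb
    rw [mem_filter] at ha hb
    have h2 : L 0 + a = L 0 + b := ha.2.trans hb.2.symm
    exact add_left_cancel h2
  exact_mod_cast h1

end Pool.Agent.U16.UGT
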