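import Pool.Agent.U16.UGT.And
import Pool.Agent.NPC.Sat

/-!
# Positive truth-table reductions to unique games
-/

set_option autoImplicit false
set_option linter.unusedSectionVars false

namespace Pool.Agent.U16.UGT

open Finset Pool.Agent.NPC Pool.Agent.NPC.R671 Pool.Agent.U16.UGO

variable {N M q k N' M' q' k' : ℕ}

/-! ### Conjunctions and disjunctions of several games -/

/-- The conjunction of `k` games. -/
def andF : (k : ℕ) → (Fin k → ℕ) → (Fin k → Raw) → Raw
  | 0, _, _ => triv 1
  | k + 1, q, r => andR (∏ i : Fin k, q i.succ) (r 0) (andF k (fun i => q i.succ) fun i => r i.succ)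

theorem andF_valid : ∀ {k : ℕ} {q : Fin k → ℕ} {r : Fin k → Raw}, (∀ i, Valid (q i) (r i)) →
    Valid (∏ i, q i) (andF k q r)
  | 0, q, r, _ => by
    rw [Fin.prod_univ_zero]
    exact triv_valid 1
  | k + 1, q, r, h => by
    rw [Fin.prod_univ_succ]
    exact and_valid (h 0) (andF_valid fun i => h i.succ)

theorem andF_yes {ε : ℝ} : ∀ {k : ℕ} {q : Fin k → ℕ} {r : Fin k → Raw},
    (∀ i, YesR ε (q i) (r i)) → YesR (k * ε) (∏ i, q i) (andF k q r)
  | 0, q, r, _ => by
    rw [Fin.prod_univ_zero, Nat.cast_zero, zero_mul]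
    exact triv_yes one_pos
  | k + 1, q, r, h => by
    rw [Fin.prod_univ_succ]
    have h1 := and_yesR (h 0) (andF_yes (ε := ε) fun i => h i.succ)
    have h2 : ((k + 1 : ℕ) : ℝ) * ε = ε + k * ε := by
      push_cast
      ring
    rw [h2]
    exact h1

theorem andF_no {δ : ℝ} : ∀ {k : ℕ} {q : Fin k → ℕ} {r : Fin k → Raw}, (∀ i, Valid (q i) (r i)) →
    ∀ i, NoR δ (q i) (r i) → NoR δ (∏ i, q i) (andF k q r)
  | 0, q, r, _ => fun i => i.elim0
  | k + 1, q, r, h => fun i hi => by
    rw [Fin.prod_univ_succ]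
    revert hi
    refine Fin.cases (fun hi => ?_) (fun i hi => ?_) i
    · exact and_noR_left hi (andF_valid fun i => h i.succ)
    · exact and_noR_right (h 0) (andF_no (fun i => h i.succ) i hi)

/-- The disjunction of `m` games over alphabets with `Q` labels. -/
def orF (Q : ℕ) : (m : ℕ) → (Fin m → Raw) → Raw
  | 0, _ => triv 0
  | m + 1, r => orR Q (r 0) (orF Q m fun i => r i.succ)

theorem orF_valid {Q : ℕ} : ∀ {m : ℕ} {r : Fin m → Raw}, (∀ i, Valid Q (r i)) →
    Valid (m * Q) (orF Q m r)
  | 0, r, _ => by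
    rw [zero_mul]
    exact triv_valid 0
  | m + 1, r, h => by
    rw [Nat.succ_mul, add_comm]
    exact or_valid (h 0) (orF_valid fun i => h i.succ)

theorem orF_yes {Q : ℕ} {ε : ℝ} : ∀ {m : ℕ} {r : Fin m → Raw}, (∀ i, Valid Q (r i)) →
    ∀ i, YesR ε Q (r i) → YesR ε (m * Q) (orF Q m r)
  | 0, r, _ => fun i => i.elim0
  | m + 1, r, h => fun i hi => by
    rw [Nat.succ_mul, add_comm]
    revert hi
    refine Fin.cases (fun hi => ?_) (fun i hi => ?_) i
    · exact or_yesR_left hi (orF_valid fun i => h i.succ)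
    · exact or_yesR_right (h 0) (orF_yes (fun i => h i.succ) i hi)

theorem triv_no : NoR 0 0 (triv 0) := by
  refine ⟨1, 1, 1, _, one_pos, fun L _ => (L 0).elim0, rfl⟩

theorem orF_no {Q : ℕ} {δ : ℝ} (hδ : 0 ≤ δ) : ∀ {m : ℕ} {r : Fin m → Raw},
    (∀ i, NoR δ Q (r i)) → NoR (m * δ) (m * Q) (orF Q m r)
  | 0, r, _ => by
    rw [zero_mul, Nat.cast_zero, zero_mul]
    exact triv_no
  | m + 1, r, h => by
    rw [Nat.succ_mul, Nat.add_comm (m * Q) Q]
    have h1 := or_noR hδ (by positivity) (h 0) (orF_no hδ fun i => h i.succ)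
    have h2 : ((m + 1 : ℕ) : ℝ) * δ = δ + m * δ := by
      push_cast
      ring
    rw [h2]
    exact h1

section poly

variable {α : Type} [TEnc α]

theorem poly_andF : ∀ {k : ℕ} (q : Fin k → ℕ) {r : Fin k → α → Raw}, (∀ i, Poly (r i)) →
    Poly (fun a => andF k q fun i => r i a)
  | 0, _, _, _ => by
    unfold andF
    exact NPC.Poly.const _
  | k + 1, q, r, h => by
    unfold andF
    exact poly_andR _ (h 0) (poly_andF (fun i => q i.succ) (r := fun i => r i.succ) fun i =>
      h i.succ)

theorem poly_orF (Q : ℕ) : ∀ {m : ℕ} {r : Fin m → α → Raw}, (∀ i, Poly (r i)) →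
    Poly (fun a => orF Q m fun i => r i a)
  | 0, _, _ => by
    unfold orF
    exact NPC.Poly.const _
  | m + 1, r, h => by
    unfold orF
    exact poly_orR _ (h 0) (poly_orF Q (r := fun i => r i.succ) fun i => h i.succ)

end poly

/-! ### Codes of games -/

/-- The tables of the permutations. -/
noncomputable def perms (q : ℕ) : List (List ℕ) :=
  (univ : Finset (Equiv.Perm (Fin q))).toList.map fun π => List.ofFn fun a => (π a : ℕ)

theorem mem_perms {q : ℕ} {l : List ℕ} :
    l ∈ perms q ↔ ∃ π : Equiv.Perm (Fin q), l = List.ofFn fun a => (π a : ℕ) := by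
  unfold perms
  simp [eq_comm]

/-- The test whether the data is the data of a game. -/
noncomputable def check (q : ℕ) (r : Raw) : Bool :=
  !r.2.2.isEmpty && r.2.2.all fun e => decide (e.1 < r.1) && (decide (e.2.1 < r.2.1) &&
    decide (e.2.2 ∈ perms q))

theorem check_iff {r : Raw} : check q r = true ↔ Valid q r := by
  obtain ⟨N, M, l⟩ := r
  unfold check
  simp only [Bool.and_eq_true, List.all_eq_true, decide_eq_true_eq, Bool.not_eq_true',
    List.isEmpty_eq_false_iff, mem_perms]
  constructor
  · rintro ⟨h1, h2⟩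
    have h3 : ∀ i : Fin l.length, l[i] ∈ l := fun i => List.getElem_mem _
    choose π hπ using fun i : Fin l.length => (h2 _ (h3 i)).2.2
    refine ⟨N, M, l.length, fun i => (⟨l[i].1, (h2 _ (h3 i)).1⟩,
      ⟨l[i].2.1, (h2 _ (h3 i)).2.1⟩, π i), List.length_pos_iff.2 h1, ?_⟩
    unfold raw
    refine Prod.ext rfl (Prod.ext rfl ?_)
    simp only
    refine List.ext_getElem (by simp) fun i hi hi' => ?_
    rw [List.getElem_ofFn]
    refine Prod.ext rfl (Prod.ext rfl ?_)
    exact hπ ⟨i, hi⟩
  · rintro ⟨N', M', k, g, hk, h⟩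
    unfold raw at h
    simp only [Prod.mk.injEq] at h
    obtain ⟨rfl, rfl, rfl⟩ := h
    refine ⟨?_, ?_⟩
    · intro h
      rw [List.ofFn_eq_nil_iff] at h
      omega
    · intro e he
      rw [List.mem_ofFn] at he
      obtain ⟨i, rfl⟩ := he
      exact ⟨(g i).1.2, (g i).2.1.2, (g i).2.2, rfl⟩

/-- The game with a given code, or the trivial game. -/
noncomputable def norm (q : ℕ) (x : List Bool) : Raw :=
  if check q ((unbits Raw x).getD (triv q)) = true then (unbits Raw x).getD (triv q) else triv q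

theorem norm_valid (q : ℕ) (x : List Bool) : Valid q (norm q x) := by
  unfold norm
  split_ifs with h
  · exact check_iff.1 h
  · exact triv_valid q

theorem norm_bits {r : Raw} (h : Valid q r) : norm q (bits r) = r := by
  unfold norm
  rw [unbits_bits, Option.getD_some, if_pos (check_iff.2 h)]

theorem poly_check (q : ℕ) : Poly (check q) := by
  unfold check
  fun_prop

theorem poly_norm (q : ℕ) : Poly (norm q) := by
  have h1 : Poly fun x : List Bool => (unbits Raw x).getD (triv q) :=
    NPC.Poly.optGetD poly_unbits (NPC.Poly.const _)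
  unfold norm
  exact NPC.Poly.ite (((poly_check q).comp h1).congr fun x => by simp) h1 (NPC.Poly.const _)

/-- The codes of the games over the alphabet `{0, …, q - 1}`, with at least one edge, of value at
least `1 - ε`. -/
def Yes (ε : ℝ) (q : ℕ) : Set (List Bool) :=
  {x | ∃ (N M k : ℕ) (g : Game N M q k), 0 < k ∧ ValueAtLeast (1 - ε) g ∧ x = code g}

/-- The codes of the games over the alphabet `{0, …, q - 1}`, with at least one edge, of value at
most `δ`. -/
def No (δ : ℝ) (q : ℕ) : Set (List Bool) :=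
  {x | ∃ (N M k : ℕ) (g : Game N M q k), 0 < k ∧ ValueAtMost δ g ∧ x = code g}

theorem mem_Yes {ε : ℝ} {x : List Bool} : x ∈ Yes ε q ↔ ∃ r, YesR ε q r ∧ x = bits r := by
  constructor
  · rintro ⟨N, M, k, g, h1, h2, h3⟩
    exact ⟨raw g, ⟨N, M, k, g, h1, h2, rfl⟩, h3⟩
  · rintro ⟨r, ⟨N, M, k, g, h1, h2, rfl⟩, h3⟩
    exact ⟨N, M, k, g, h1, h2, h3⟩

theorem mem_No {δ : ℝ} {x : List Bool} : x ∈ No δ q ↔ ∃ r, NoR δ q r ∧ x = bits r := by
  constructor
  · rintro ⟨N, M, k, g, h1, h2, h3⟩
    exact ⟨raw g, ⟨N, M, k, g, h1, h2, rfl⟩, h3⟩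
  · rintro ⟨r, ⟨N, M, k, g, h1, h2, rfl⟩, h3⟩
    exact ⟨N, M, k, g, h1, h2, h3⟩

theorem norm_yes {ε : ℝ} {x : List Bool} (h : x ∈ Yes ε q) : YesR ε q (norm q x) := by
  obtain ⟨r, h1, rfl⟩ := mem_Yes.1 h
  rw [norm_bits h1.valid]
  exact h1

theorem norm_no {δ : ℝ} {x : List Bool} (h : x ∈ No δ q) : NoR δ q (norm q x) := by
  obtain ⟨r, h1, rfl⟩ := mem_No.1 h
  rw [norm_bits h1.valid]
  exact h1

theorem yes_no {ε δ : ℝ} (h : ε + δ < 1) {r : Raw} (h1 : YesR ε q r) (h2 : NoR δ q r) : False := by
  obtain ⟨N, M, k, g, hk, ⟨L, R, hv⟩, rfl⟩ := h1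
  obtain ⟨N', M', k', g', hk', hv', hr⟩ := h2
  unfold raw at hr
  simp only [Prod.mk.injEq] at hr
  obtain ⟨rfl, rfl, hr⟩ := hr
  have hkk : k = k' := by
    have := congrArg List.length hr
    simpa using this
  subst hkk
  have h3 := List.ofFn_injective hr
  have hg : g = g' := by
    funext e
    have h4 := congrFun h3 e
    simp only [Prod.mk.injEq] at h4
    refine Prod.ext (Fin.ext h4.1) (Prod.ext (Fin.ext h4.2.1) (Equiv.ext fun a => ?_))
    have h5 := congrFun (List.ofFn_injective h4.2.2) a
    exact Fin.ext h5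
  subst hg
  have h6 := hv.trans (hv' L R)
  have h7 : (0 : ℝ) < k := by exact_mod_cast hk
  nlinarith

theorem disjoint {ε δ : ℝ} (h : ε + δ < 1) : Disjoint (Yes ε q) (No δ q) := by
  rw [Set.disjoint_left]
  intro x h1 h2
  obtain ⟨r, h1', rfl⟩ := mem_Yes.1 h1
  obtain ⟨r', h2', h3⟩ := mem_No.1 h2
  rw [bits_injective h3] at h1'
  exact yes_no h h1' h2'

/-! ### Reductions -/

/-- The language `L` reduces to the promise problem `(Y, Z)` in polynomial time (many-one). -/
def Red (L Y Z : Set (List Bool)) : Prop :=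
  ∃ f, PolyTime f ∧ ∀ x, (x ∈ L → f x ∈ Y) ∧ (x ∉ L → f x ∈ Z)

open Classical in
/-- The language `L` has a positive truth-table reduction to the promise problems `(Y i, Z i)` with
`k` queries, one to each of them: the queries `f i x` and the truth table of the monotone function
`φ x` are computed in polynomial time, and, for all sets `A i` which solve the promise problems, `x`
belongs to `L` if and only if `φ x` is true for the answers to `f i x ∈ A i`. -/
def PosTT {k : ℕ} (L : Set (List Bool)) (Y Z : Fin k → Set (List Bool)) : Prop :=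
  ∃ (f : Fin k → List Bool → List Bool) (φ : List Bool → (Fin k → Bool) → Bool),
    (∀ i, PolyTime (f i)) ∧ (∀ b, PolyTime fun x => [φ x b]) ∧ (∀ x, Monotone (φ x)) ∧
    ∀ A : Fin k → Set (List Bool), (∀ i, Y i ⊆ A i) → (∀ i, Disjoint (A i) (Z i)) →
      ∀ x, x ∈ L ↔ φ x (fun i => decide (f i x ∈ A i)) = true

theorem poly_head {φ : List Bool → Bool} (h : PolyTime fun x => [φ x]) : Poly φ := by
  have h1 := Med.poly_of_polyTime h
  refine (NPC.Poly.decide_eq h1 (NPC.Poly.const [true])).congr fun x => ?_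
  cases φ x <;> simp

section reduction

variable {k : ℕ} (q : Fin k → ℕ) (q0 : ℕ) [NeZero q0] (f : Fin k → List Bool → List Bool)
  (φ : List Bool → (Fin k → Bool) → Bool)

/-- The game of a query, if it belongs to the set `S`. -/
noncomputable def comp (S : Fin k → Bool) (x : List Bool) (i : Fin k) : Raw :=
  if S i = true then norm (q i) (f i x) else triv (q i)

theorem comp_valid (S : Fin k → Bool) (x : List Bool) (i : Fin k) :
    Valid (q i) (comp q f S x i) := by
  unfold comp
  split_ifs
  · exact norm_valid _ _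
  · exact triv_valid _

/-- The conjunction of the games of the queries in the set `S`. -/
noncomputable def term (S : Fin k → Bool) (x : List Bool) : Raw :=
  if φ x S = true then andR q0 (andF k q (comp q f S x)) (triv q0)
  else andR q0 (triv (∏ i, q i)) (shifts q0)

/-- The subsets of the set of the queries. -/
noncomputable def subs (k : ℕ) : Fin (2 ^ k) ≃ (Fin k → Bool) :=
  (Fintype.equivFinOfCardEq (by simp)).symm

/-- The disjunction of the conjunctions. -/
noncomputable def total (x : List Bool) : Raw :=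
  orF ((∏ i, q i) * q0) (2 ^ k) fun j => term q q0 f φ (subs k j) x

theorem term_valid (S : Fin k → Bool) (x : List Bool) :
    Valid ((∏ i, q i) * q0) (term q q0 f φ S x) := by
  unfold term
  split_ifs
  · exact and_valid (andF_valid fun i => comp_valid q f S x i) (triv_valid q0)
  · exact and_valid (triv_valid _) (shifts_no q0 (δ := 1) (by
      have : 1 ≤ q0 := Nat.one_le_iff_ne_zero.2 (NeZero.ne q0)
      rw [one_mul]
      exact_mod_cast this)).valid

theorem poly_total (hf : ∀ i, PolyTime (f i)) (hφ : ∀ b, PolyTime fun x => [φ x b]) :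
    PolyTime fun x => bits (total q q0 f φ x) := by
  refine polyTime_bits ?_
  refine poly_orF _ fun j => ?_
  have h1 : ∀ i, Poly fun x => comp q f (subs k j) x i := by
    intro i
    unfold comp
    split_ifs
    · exact (poly_norm (q i)).comp (Med.poly_of_polyTime (hf i))
    · exact NPC.Poly.const _
  have h2 : Poly fun x => andR q0 (andF k q (comp q f (subs k j) x)) (triv q0) :=
    poly_andR q0 (poly_andF q h1) (NPC.Poly.const _)
  exact NPC.Poly.ite ((poly_head (hφ (subs k j))).congr fun x => by simp) h2 (NPC.Poly.const _)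

end reduction

/-- Positive truth-table reductions to gap unique games become many-one reductions. -/
theorem red_of_posTT {k : ℕ} {L : Set (List Bool)} {q : Fin k → ℕ} {ε δ : ℝ} (hε : 0 ≤ ε)
    (hδ : 0 ≤ δ) (hεδ : ε + δ < 1) (hq : ∀ i, 0 < q i) (q0 : ℕ) (hq0 : 1 ≤ δ * q0)
    (h : PosTT L (fun i => Yes ε (q i)) (fun i => No δ (q i))) :
    Red L (Yes (k * ε) (2 ^ k * ((∏ i, q i) * q0))) (No (2 ^ k * δ) (2 ^ k * ((∏ i, q i) * q0))) := by
  classical
  have hne : q0 ≠ 0 := by
    rintro rfl
    norm_num at hq0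
  have : NeZero q0 := ⟨hne⟩
  have hq0' : 0 < q0 := Nat.pos_of_ne_zero hne
  obtain ⟨f, φ, hf, hφ, hmon, hA⟩ := h
  refine ⟨fun x => bits (total q q0 f φ x), poly_total q q0 f φ hf hφ, fun x => ⟨fun hx => ?_,
    fun hx => ?_⟩⟩
  · rw [mem_Yes]
    refine ⟨_, ?_, rfl⟩
    have h1 := (hA (fun i => Yes ε (q i)) (fun i => subset_rfl) (fun i => disjoint hεδ) x).1 hx
    obtain ⟨j, hj⟩ := (subs k).surjective fun i => decide (f i x ∈ Yes ε (q i))
    refine orF_yes (fun i => term_valid q q0 f φ _ x) j ?_
    rw [hj]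
    unfold term
    have h1' : φ x (fun i => decide (f i x ∈ Yes ε (q i))) = true := by
      refine Eq.trans (congrArg (φ x) ?_) h1
      funext i
      congr
    rw [if_pos h1']
    have h2 : YesR (k * ε) (∏ i, q i)
        (andF k q (comp q f (fun i => decide (f i x ∈ Yes ε (q i))) x)) := by
      refine andF_yes fun i => ?_
      unfold comp
      split_ifs with h3
      · exact norm_yes (of_decide_eq_true h3)
      · exact (triv_yes (hq i)).mono hε
    have h3 := and_yesR h2 (triv_yes hq0')
    rwa [add_zero] at h3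
  · rw [mem_No]
    refine ⟨_, ?_, rfl⟩
    have h1 : ¬ φ x (fun i => decide (f i x ∈ (No δ (q i))ᶜ)) = true := by
      intro h1
      refine hx ((hA (fun i => (No δ (q i))ᶜ) (fun i => ?_) (fun i => disjoint_compl_left) x).2 ?_)
      · exact Set.subset_compl_iff_disjoint_right.2 (disjoint hεδ)
      · refine Eq.trans (congrArg (φ x) ?_) h1
        funext i
        congr
    have h2 : ∀ S, NoR δ ((∏ i, q i) * q0) (term q q0 f φ S x) := by
      intro S
      unfold term
      split_ifs with h3
      · have h4 : ∃ i, S i = true ∧ f i x ∈ No δ (q i) := by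
          by_contra hcon
          push Not at hcon
          refine h1 ?_
          have h5 : S ≤ fun i => decide (f i x ∈ (No δ (q i))ᶜ) := by
            intro i
            by_cases hS : S i = true
            · show S i ≤ decide (f i x ∈ (No δ (q i))ᶜ)
              rw [hS, decide_eq_true (show f i x ∈ (No δ (q i))ᶜ from hcon i hS)]
            · rw [Bool.not_eq_true] at hS
              rw [hS]
              exact Bool.false_le _
          have h6 := hmon x h5
          rw [h3] at h6
          exact Bool.eq_true_of_true_le h6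
        obtain ⟨i, hS, hi⟩ := h4
        refine and_noR_left (andF_no (fun i => comp_valid q f S x i) i ?_) (triv_valid q0)
        unfold comp
        rw [if_pos hS]
        exact norm_no hi
      · exact and_noR_right (triv_valid _) (shifts_no q0 hq0)
    have h3 := orF_no hδ (fun j => h2 (subs k j))
    push_cast at h3
    exact h3

end Pool.Agent.U16.UGT
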